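import Pool.Agent.Helper43.Hw.Goals2

/-! # Packet H18: density -/

set_option autoImplicit false

namespace Pool.Agent.Helper43.Hw.PkH18

open Finset Filter Topology

open Classical in
/-- Counting in the box. -/
theorem count (P : ℕ → ℕ → ℕ → Prop) (a ε : ℝ) (X M : ℕ) (hε : 0 < ε)
    (hM : M = ⌊(X : ℝ) ^ a⌋₊)
    (h1 : ∀ n : ℕ, 1 ≤ n → n ≤ X → ε * X ≤ n → ¬ IsSquare n →
      (Set.ncard {m : ℕ | 1 ≤ m ∧ m ≤ M ∧ ∃ d, ¬ P n m d} : ℝ) ≤ ε * M)
    (h2 : (Nat.sqrt X : ℝ) ≤ ε * X) :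
    (1 - 3 * ε) * (X * M) ≤ (Set.ncard {p : ℕ × ℕ | 1 ≤ p.1 ∧ p.1 ≤ X ∧ 1 ≤ p.2 ∧
      (p.2 : ℝ) ≤ (X : ℝ) ^ a ∧ ∀ d, P p.1 p.2 d} : ℝ) ∧
    (Set.ncard {p : ℕ × ℕ | 1 ≤ p.1 ∧ p.1 ≤ X ∧ 1 ≤ p.2 ∧
      (p.2 : ℝ) ≤ (X : ℝ) ^ a ∧ ∀ d, P p.1 p.2 d} : ℝ) ≤ X * M := by
  have hXa : (0 : ℝ) ≤ (X : ℝ) ^ a := Real.rpow_nonneg (Nat.cast_nonneg _) _
  have hset : {p : ℕ × ℕ | 1 ≤ p.1 ∧ p.1 ≤ X ∧ 1 ≤ p.2 ∧
      (p.2 : ℝ) ≤ (X : ℝ) ^ a ∧ ∀ d, P p.1 p.2 d} =
      ((Icc 1 X ×ˢ Icc 1 M).filter (fun p => ∀ d, P p.1 p.2 d) : Finset (ℕ × ℕ)) := by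
    ext p
    simp only [Set.mem_ofPred_eq, coe_filter, mem_product, mem_Icc, hM, Nat.le_floor_iff hXa]
    tauto
  rw [hset, Set.ncard_coe_finset]
  have hcard : (Icc 1 X ×ˢ Icc 1 M : Finset (ℕ × ℕ)).card = X * M := by
    rw [card_product, Nat.card_Icc, Nat.card_Icc]
    simp
  have hsum := card_filter_add_card_filter_not (s := (Icc 1 X ×ˢ Icc 1 M : Finset (ℕ × ℕ)))
    (fun p => ∀ d, P p.1 p.2 d)
  rw [hcard] at hsum
  -- the bad pairs
  have hbad : (((Icc 1 X ×ˢ Icc 1 M).filter (fun p => ¬ ∀ d, P p.1 p.2 d) :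
      Finset (ℕ × ℕ)).card : ℝ) ≤ 3 * ε * (X * M) := by
    have e1 : ((Icc 1 X ×ˢ Icc 1 M).filter (fun p => ¬ ∀ d, P p.1 p.2 d) :
        Finset (ℕ × ℕ)).card =
        ∑ n ∈ Icc 1 X, ((Icc 1 M).filter (fun m => ¬ ∀ d, P n m d)).card := by
      rw [card_filter, sum_product]
      refine sum_congr rfl fun n _ => ?_
      rw [card_filter]
    rw [e1]
    push_cast
    have hb : ∀ n ∈ Icc 1 X, (((Icc 1 M).filter (fun m => ¬ ∀ d, P n m d)).card : ℝ) ≤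
        (if (n : ℝ) < ε * X then (M : ℝ) else 0) + (if IsSquare n then (M : ℝ) else 0) +
          ε * M := by
      intro n hn
      rw [mem_Icc] at hn
      have hM0 : (0 : ℝ) ≤ M := Nat.cast_nonneg M
      have hle : (((Icc 1 M).filter (fun m => ¬ ∀ d, P n m d)).card : ℝ) ≤ M := by
        have := card_filter_le (Icc 1 M) (fun m => ¬ ∀ d, P n m d)
        rw [Nat.card_Icc] at this
        have h3 : ((Icc 1 M).filter (fun m => ¬ ∀ d, P n m d)).card ≤ M := by omega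
        exact_mod_cast h3
      have hεM : 0 ≤ ε * M := by positivity
      by_cases c1 : (n : ℝ) < ε * X
      · rw [if_pos c1]
        split_ifs <;> linarith
      · by_cases c2 : IsSquare n
        · rw [if_pos c2]
          split_ifs <;> linarith
        · rw [if_neg c1, if_neg c2]
          have h3 := h1 n hn.1 hn.2 (not_lt.1 c1) c2
          have h4 : {m : ℕ | 1 ≤ m ∧ m ≤ M ∧ ∃ d, ¬ P n m d} =
              ((Icc 1 M).filter (fun m => ¬ ∀ d, P n m d) : Finset ℕ) := by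
            ext m
            simp only [Set.mem_ofPred_eq, coe_filter, mem_Icc, not_forall]
            tauto
          rw [h4, Set.ncard_coe_finset] at h3
          linarith
    refine (sum_le_sum hb).trans ?_
    rw [sum_add_distrib, sum_add_distrib, sum_const, Nat.card_Icc]
    have s1 : ∑ n ∈ Icc 1 X, (if (n : ℝ) < ε * X then (M : ℝ) else 0) ≤ ε * X * M := by
      rw [← sum_filter, sum_const, nsmul_eq_mul]
      have h3 : (Icc 1 X).filter (fun n : ℕ => (n : ℝ) < ε * X) ⊆ Icc 1 ⌊ε * X⌋₊ := by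
        intro n hn
        rw [mem_filter, mem_Icc] at hn
        rw [mem_Icc]
        exact ⟨hn.1.1, Nat.le_floor hn.2.le⟩
      have h4 := card_le_card h3
      rw [Nat.card_Icc] at h4
      have h5 : (((Icc 1 X).filter (fun n : ℕ => (n : ℝ) < ε * X)).card : ℝ) ≤ ⌊ε * X⌋₊ := by
        exact_mod_cast (by omega : ((Icc 1 X).filter (fun n : ℕ => (n : ℝ) < ε * X)).card ≤ _)
      have h6 : (⌊ε * X⌋₊ : ℝ) ≤ ε * X := Nat.floor_le (by positivity)
      exact mul_le_mul_of_nonneg_right (h5.trans h6) (Nat.cast_nonneg M)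
    have s2 : ∑ n ∈ Icc 1 X, (if IsSquare n then (M : ℝ) else 0) ≤ ε * X * M := by
      rw [← sum_filter, sum_const, nsmul_eq_mul]
      have h3 : (Icc 1 X).filter (fun n : ℕ => IsSquare n) ⊆
          (Icc 1 (Nat.sqrt X)).image (fun k => k * k) := by
        intro n hn
        rw [mem_filter, mem_Icc] at hn
        obtain ⟨⟨h4, h5⟩, k, hk⟩ := hn
        rw [mem_image]
        refine ⟨k, ?_, hk.symm⟩
        rw [mem_Icc]
        refine ⟨?_, ?_⟩
        · by_contra h6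
          have h7 : k = 0 := by omega
          rw [h7] at hk
          omega
        · rw [Nat.le_sqrt, ← hk]
          exact h5
      have h4 := (card_le_card h3).trans card_image_le
      rw [Nat.card_Icc] at h4
      have h5 : (((Icc 1 X).filter (fun n : ℕ => IsSquare n)).card : ℝ) ≤ Nat.sqrt X := by
        exact_mod_cast (by omega : ((Icc 1 X).filter (fun n : ℕ => IsSquare n)).card ≤ _)
      exact mul_le_mul_of_nonneg_right (h5.trans h2) (Nat.cast_nonneg M)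
    have s3 : (X + 1 - 1) • (ε * (M : ℝ)) = ε * X * M := by
      rw [nsmul_eq_mul]
      simp
      ring
    rw [s3]
    calc _ ≤ ε * X * M + ε * X * M + ε * X * M := by gcongr
      _ = 3 * ε * (X * M) := by ring
  have hsum' : (((Icc 1 X ×ˢ Icc 1 M).filter (fun p => ∀ d, P p.1 p.2 d) :
      Finset (ℕ × ℕ)).card : ℝ) + (((Icc 1 X ×ˢ Icc 1 M).filter
        (fun p => ¬ ∀ d, P p.1 p.2 d) : Finset (ℕ × ℕ)).card : ℝ) = X * M := by
    exact_mod_cast hsum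
  constructor
  · linarith
  · have : (0 : ℝ) ≤ (((Icc 1 X ×ˢ Icc 1 M).filter
        (fun p => ¬ ∀ d, P p.1 p.2 d) : Finset (ℕ × ℕ)).card : ℝ) := Nat.cast_nonneg _
    linarith

theorem goalH18 : GoalH18 := by
  intro P hA a ha1 ha2
  rw [Metric.tendsto_atTop']
  intro τ hτ
  obtain ⟨ε, hε0, hε1, hε2, hε3, hε4⟩ : ∃ ε : ℝ, 0 < ε ∧ 1 / 2 + ε < a ∧ a < 3 / 2 - ε ∧
      4 * ε < τ ∧ 3 * ε ≤ 1 := by
    refine ⟨min (min ((a - 1 / 2) / 2) ((3 / 2 - a) / 2)) (min (τ / 8) (1 / 3)), ?_, ?_, ?_, ?_, ?_⟩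
    · refine lt_min (lt_min ?_ ?_) (lt_min ?_ ?_) <;> linarith
    · have : min (min ((a - 1 / 2) / 2) ((3 / 2 - a) / 2)) (min (τ / 8) (1 / 3)) ≤
        (a - 1 / 2) / 2 := (min_le_left _ _).trans (min_le_left _ _)
      linarith
    · have : min (min ((a - 1 / 2) / 2) ((3 / 2 - a) / 2)) (min (τ / 8) (1 / 3)) ≤
        (3 / 2 - a) / 2 := (min_le_left _ _).trans (min_le_right _ _)
      linarith
    · have : min (min ((a - 1 / 2) / 2) ((3 / 2 - a) / 2)) (min (τ / 8) (1 / 3)) ≤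
        τ / 8 := (min_le_right _ _).trans (min_le_left _ _)
      linarith
    · have : min (min ((a - 1 / 2) / 2) ((3 / 2 - a) / 2)) (min (τ / 8) (1 / 3)) ≤
        1 / 3 := (min_le_right _ _).trans (min_le_right _ _)
      linarith
  obtain ⟨n0, hn0⟩ := hA ε hε0
  -- the conditions on `X`
  have hcast : Tendsto (fun X : ℕ => (X : ℝ)) atTop atTop := tendsto_natCast_atTop_atTop
  have c1 : ∀ᶠ X : ℕ in atTop, (X : ℝ) ^ (1 / 2 + ε) + 1 ≤ (X : ℝ) ^ a := by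
    have h1 : Tendsto (fun X : ℕ => (X : ℝ) ^ (a - (1 / 2 + ε))) atTop atTop :=
      (tendsto_rpow_atTop (by linarith)).comp hcast
    filter_upwards [h1.eventually_ge_atTop 2, eventually_ge_atTop 1] with X hX hX1
    have hX0 : (1 : ℝ) ≤ X := by exact_mod_cast hX1
    have h2 : (X : ℝ) ^ a = (X : ℝ) ^ (a - (1 / 2 + ε)) * (X : ℝ) ^ (1 / 2 + ε) := by
      rw [← Real.rpow_add (by linarith)]
      congr 1
      ring
    have h3 : (1 : ℝ) ≤ (X : ℝ) ^ (1 / 2 + ε) := Real.one_le_rpow hX0 (by linarith)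
    rw [h2]
    nlinarith
  have c2 : ∀ᶠ X : ℕ in atTop, (X : ℝ) ^ a ≤ (ε * X) ^ (3 / 2 - ε) := by
    have h1 : Tendsto (fun X : ℕ => (X : ℝ) ^ (3 / 2 - ε - a)) atTop atTop :=
      (tendsto_rpow_atTop (by linarith)).comp hcast
    filter_upwards [h1.eventually_ge_atTop ((ε ^ (3 / 2 - ε))⁻¹), eventually_ge_atTop 1] with
      X hX hX1
    have hX0 : (1 : ℝ) ≤ X := by exact_mod_cast hX1
    have he : 0 < ε ^ (3 / 2 - ε) := Real.rpow_pos_of_pos hε0 _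
    rw [Real.mul_rpow hε0.le (by linarith)]
    have h2 : (X : ℝ) ^ (3 / 2 - ε) = (X : ℝ) ^ (3 / 2 - ε - a) * (X : ℝ) ^ a := by
      rw [← Real.rpow_add (by linarith)]
      congr 1
      ring
    rw [h2, ← mul_assoc]
    have h3 : 1 ≤ ε ^ (3 / 2 - ε) * (X : ℝ) ^ (3 / 2 - ε - a) := by
      have := mul_le_mul_of_nonneg_left hX he.le
      rwa [mul_inv_cancel₀ he.ne'] at this
    have h4 : 0 ≤ (X : ℝ) ^ a := Real.rpow_nonneg (by linarith) _
    nlinarith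
  have c3 : ∀ᶠ X : ℕ in atTop, (n0 : ℝ) ≤ ε * X :=
    (hcast.const_mul_atTop hε0).eventually_ge_atTop _
  have c4 : ∀ᶠ X : ℕ in atTop, (Nat.sqrt X : ℝ) ≤ ε * X := by
    filter_upwards [hcast.eventually_ge_atTop (1 / ε ^ 2), eventually_ge_atTop 1] with X hX hX1
    have hX0 : (1 : ℝ) ≤ X := by exact_mod_cast hX1
    have h1 : (Nat.sqrt X : ℝ) ≤ Real.sqrt X := Real.nat_sqrt_le_real_sqrt
    refine h1.trans ?_
    rw [Real.sqrt_le_left (by positivity), mul_pow]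
    rw [div_le_iff₀ (by positivity)] at hX
    nlinarith
  have c5 : ∀ᶠ X : ℕ in atTop, 1 / ε ≤ (X : ℝ) ^ a :=
    ((tendsto_rpow_atTop (by linarith)).comp hcast).eventually_ge_atTop _
  obtain ⟨X0, hX0⟩ := eventually_atTop.1
    (c1.and (c2.and (c3.and (c4.and (c5.and (eventually_ge_atTop 1))))))
  refine ⟨X0, fun X hX => ?_⟩
  obtain ⟨d1, d2, d3, d4, d5, d6⟩ := hX0 X hX.le
  have hX1 : (1 : ℝ) ≤ X := by exact_mod_cast d6
  have hXa : 0 < (X : ℝ) ^ a := Real.rpow_pos_of_pos (by linarith) _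
  set M : ℕ := ⌊(X : ℝ) ^ a⌋₊ with hM
  have hM1 : (M : ℝ) ≤ (X : ℝ) ^ a := Nat.floor_le hXa.le
  have hM2 : (X : ℝ) ^ a < M + 1 := Nat.lt_floor_add_one _
  obtain ⟨k1, k2⟩ := count P a ε X M hε0 hM (by
    intro n hn1 hnX hn hsq
    have hn' : (1 : ℝ) ≤ n := by exact_mod_cast hn1
    have hnX' : (n : ℝ) ≤ X := by exact_mod_cast hnX
    refine hn0 n ?_ hsq M ?_ ?_
    · exact_mod_cast d3.trans hn
    · have h1 : (n : ℝ) ^ (1 / 2 + ε) ≤ (X : ℝ) ^ (1 / 2 + ε) :=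
        Real.rpow_le_rpow (by linarith) hnX' (by linarith)
      linarith
    · have h1 : (ε * X) ^ (3 / 2 - ε) ≤ (n : ℝ) ^ (3 / 2 - ε) :=
        Real.rpow_le_rpow (by positivity) hn (by linarith)
      linarith) d4
  have hpow : (X : ℝ) ^ (1 + a) = X * (X : ℝ) ^ a := by
    rw [Real.rpow_add (by linarith), Real.rpow_one]
  have hden : 0 < (X : ℝ) ^ (1 + a) := Real.rpow_pos_of_pos (by linarith) _
  rw [Real.dist_eq, abs_lt]
  constructor
  · have h1 : (1 - 4 * ε) * (X : ℝ) ^ (1 + a) ≤ (1 - 3 * ε) * (X * M) := by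
      rw [hpow]
      have h2 : (1 - ε) * (X : ℝ) ^ a ≤ M := by
        rw [div_le_iff₀ hε0] at d5
        nlinarith
      have h3 : (X : ℝ) * ((1 - ε) * (X : ℝ) ^ a) ≤ X * M :=
        mul_le_mul_of_nonneg_left h2 (by linarith)
      have h4 := mul_le_mul_of_nonneg_left h3 (by linarith : (0 : ℝ) ≤ 1 - 3 * ε)
      refine le_trans ?_ h4
      have h5 : 0 ≤ 3 * ε * ε * (X * (X : ℝ) ^ a) := by positivity
      nlinarith
    have h6 : 1 - 4 * ε ≤ _ := (le_div_iff₀ hden).2 (h1.trans k1)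
    linarith
  · have h1 : _ ≤ (1 : ℝ) := (div_le_one hden).2 (k2.trans (by
      rw [hpow]
      exact mul_le_mul_of_nonneg_left hM1 (by linarith)))
    linarith

end Pool.Agent.Helper43.Hw.PkH18
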